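import Mathlib
import Pool.Agent.Lib.helper24.Succ
import Pool.Agent.Lib.helper21.NS
import Pool.Agent.H.MP_8a2df8_gt.A

set_option autoImplicit false

open Set Filter Topology TopologicalSpace
open Cardinal hiding univ
open Pool.Agent.Lib.helper24.Succ Pool.Agent.Lib.helper21.NS Pool.Agent.H.MP_8a2df8_gt

namespace Pool.Agent.H.MP_20595b_gt

abbrev V : Type := W ℵ₀

lemma reg : Reg V := reg_of_isRegular (isRegular_succ le_rfl) (Order.lt_succ _)

lemma closure_pt {S : Set V} (hS : ¬ J S) (F : V → V) :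
    ∃ d ∈ S, (∃ b, b < d) ∧ ∀ b < d, F b < d := by
  classical
  by_contra h
  push Not at h
  choose! f hf hf' using h
  refine hS ⟨fun d => if ∃ b, b < d then f d else d, fun d hd hb => ?_,
    fun y => ⟨max y (F y), ?_⟩⟩
  · simp only [if_pos hb]
    exact hf d hd hb
  · rintro d ⟨hd, h⟩
    by_cases hb : ∃ b, b < d
    · simp only [if_pos hb] at h
      exact (h ▸ hf' d hd hb).trans (le_max_right _ _)
    · simp only [if_neg hb] at h
      exact h.le.trans (le_max_left _ _)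

def L : Type := WithTop V

noncomputable instance : LinearOrder L := inferInstanceAs (LinearOrder (WithTop V))
instance : OrderTop L := inferInstanceAs (OrderTop (WithTop V))
noncomputable instance : TopologicalSpace L := Preorder.topology L
instance : OrderTopology L := ⟨rfl⟩
def up (a : V) : L := (a : WithTop V)

lemma up_lt_top (a : V) : up a < ⊤ := WithTop.coe_lt_top a
lemma up_lt {a b : V} : up a < up b ↔ a < b := WithTop.coe_lt_coe
lemma up_le {a b : V} : up a ≤ up b ↔ a ≤ b := WithTop.coe_le_coe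
lemma up_inj : Function.Injective up := WithTop.coe_injective
lemma cases (x : L) : x = ⊤ ∨ ∃ a, x = up a := by
  rcases x with _ | a
  · exact Or.inl rfl
  · exact Or.inr ⟨a, rfl⟩

lemma left_nhds {x : L} {U : Set L} (hU : U ∈ 𝓝 x) (hx : ∃ b, up b < x) :
    ∃ b, up b < x ∧ Ioc (up b) x ⊆ U := by
  obtain ⟨l, hl, h⟩ := exists_Ioc_subset_of_mem_nhds hU (hx.elim fun b hb => ⟨_, hb⟩)
  rcases cases l with rfl | ⟨b, rfl⟩
  · exact absurd hl not_top_lt
  · exact ⟨b, hl, h⟩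

lemma left_nhds' {X : Set L} {x : X} {U : Set X} (hU : U ∈ 𝓝 x) (hx : ∃ b, up b < x.1) :
    ∃ b, up b < x.1 ∧ ∀ y : X, up b < y.1 → y.1 ≤ x.1 → y ∈ U := by
  obtain ⟨U', hU', h⟩ := (mem_nhds_subtype _ _ _).1 hU
  obtain ⟨b, hb, hb'⟩ := left_nhds hU' hx
  exact ⟨b, hb, fun y h1 h2 => h (hb' ⟨h1, h2⟩)⟩

lemma ev_const {X : Set L} (ht : ⊤ ∈ X) (f : ℕ → Cp X) :
    ∃ b, ∀ n, ∀ y : X, up b < y.1 → (f n).1 y = (f n).1 ⟨⊤, ht⟩ := by
  have : ∀ p : ℕ × ℕ, ∃ b, ∀ y : X, up b < y.1 →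
      dist ((f p.1).1 y) ((f p.1).1 ⟨⊤, ht⟩) < 1 / ((p.2 : ℝ) + 1) := fun p => by
    obtain ⟨b, -, hb⟩ := left_nhds' ((f p.1).2.continuousAt.preimage_mem_nhds
      (Metric.ball_mem_nhds ((f p.1).1 ⟨⊤, ht⟩) (Nat.one_div_pos_of_nat (n := p.2))))
      ⟨Classical.arbitrary V, up_lt_top _⟩
    exact ⟨b, fun y hy => hb y hy le_top⟩
  choose β hβ using this
  obtain ⟨b, hb⟩ := bdd_range le_rfl mk_le_aleph0 β
  refine ⟨b, fun n y hy => ?_⟩
  by_contra h
  obtain ⟨m, hm⟩ := exists_nat_one_div_lt (dist_pos.2 h)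
  exact lt_asymm hm (hβ (n, m) y ((up_lt.2 (hb _)).trans hy))

lemma count_le (X : Set L) (b : V) : {y : X | y.1 = ⊤ ∨ y.1 ≤ up b}.Countable := by
  have h1 : (Iic b).Countable := le_aleph0_iff_set_countable.1 (card_Iic le_rfl b)
  refine (((h1.image up).insert ⊤).preimage Subtype.val_injective).mono ?_
  rintro ⟨y, hy⟩ (h | h)
  · exact Or.inl h
  · rcases cases y with rfl | ⟨a, rfl⟩
    · exact Or.inl rfl
    · exact Or.inr ⟨a, up_le.1 h, rfl⟩

lemma seq_of_closure {Y : Type} [TopologicalSpace Y] {Z : Set (Cp Y)} {A : Set Z} {g : Y → ℝ}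
    {T : Set Y} (hT : T.Countable) (l : Filter Z) [l.NeBot] (hl : A ∈ l)
    (h : ∀ t ∈ T, Tendsto (fun f : Z => f.1.1 t) l (𝓝 (g t))) :
    ∃ a : ℕ → Z, (∀ n, a n ∈ A) ∧ ∀ t ∈ T, Tendsto (fun n => (a n).1.1 t) atTop (𝓝 (g t)) := by
  haveI := hT.to_subtype
  have : (fun t : T => g t.1) ∈ closure ((fun (f : Z) (t : T) => f.1.1 t.1) '' A) :=
    mem_closure_of_tendsto (tendsto_pi_nhds.2 fun t => h t.1 t.2)
      (mem_of_superset hl fun f hf => ⟨f, hf, rfl⟩)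
  obtain ⟨u, hu, hu'⟩ := mem_closure_iff_seq_limit.1 this
  choose a ha ha' using hu
  refine ⟨a, ha, fun t ht => (tendsto_pi_nhds.1 hu' ⟨t, ht⟩).congr fun n => ?_⟩
  rw [← ha']

theorem groth {X : Set L} (ht : ⊤ ∈ X) (hS : ¬ J {a | up a ∈ X}) (Z : Set (Cp X)) : IsG Z := by
  intro A hA
  have hA' := cluster hA
  refine finish hA' fun g hg => ?_
  have cev : ∀ p : X, Continuous fun f : Z => f.1.1 p := fun p =>
    (continuous_apply p).comp (continuous_subtype_val.comp continuous_subtype_val)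
  obtain ⟨l, hl, hlA, hlg⟩ : ∃ l : Filter Z, l.NeBot ∧ A ∈ l ∧
      ∀ t, Tendsto (fun f : Z => f.1.1 t) l (𝓝 (g t)) := by
    refine ⟨comap (fun f : Z => f.1.1) (𝓝 g) ⊓ 𝓟 A, ?_, mem_inf_of_right (mem_principal_self A),
      fun t => ((continuous_apply t).tendsto g).comp (tendsto_comap.mono_left inf_le_left)⟩
    refine inf_principal_neBot_iff.2 ?_
    rintro U ⟨V, hV, hVU⟩
    obtain ⟨_, h1, f, hf, rfl⟩ := mem_closure_iff_nhds.1 hg V hV
    exact ⟨f, hVU h1, hf⟩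
  choose a ha ha' using fun b => seq_of_closure (count_le X b) l hlA fun t _ => hlg t
  choose F hF using fun b => ev_const ht fun n => (a b n).1
  have key : ∀ F' : V → V, ∃ d, ∃ hd : up d ∈ X, (∃ b, b < d) ∧ (∀ b < d, F' b < d) ∧ ∃ h : Z,
      (∀ y : X, y.1 < up d → h.1.1 y = g y) ∧ ∀ y : X, up d ≤ y.1 → h.1.1 y = g ⟨⊤, ht⟩ := by
    intro F'
    obtain ⟨d, hd, ⟨b0, hb0⟩, hd'⟩ := closure_pt hS fun b => max (F b) (F' b)
    haveI : Nonempty (Iio d) := ⟨⟨b0, hb0⟩⟩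
    let m : Filter Z := Filter.bind atTop fun b : Iio d => map (a b.1) atTop
    haveI : m.NeBot := ⟨fun h' => by
      have : (∅ : Set Z) ∈ m := by rw [h']; exact mem_bot
      obtain ⟨n, hn⟩ := Filter.nonempty_of_mem (mem_bind'.1 this)
      exact empty_notMem (map (a n.1) atTop) hn⟩
    obtain ⟨c, hc, hc'⟩ := seq_of_closure (A := {f | ∃ b < d, ∃ n, f = a b n}) (g := g)
      (T := {y : X | y.1 = ⊤ ∨ y.1 < up d})
      ((count_le X d).mono fun y hy => hy.imp id le_of_lt) m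
      (mem_bind'.2 (univ_mem' fun b => (mem_map (m := a b.1)).2 (univ_mem' fun n =>
        ⟨b.1, b.2, n, rfl⟩))) (by
        intro t ht' s hs
        refine mem_map.2 (mem_bind'.2 ?_)
        obtain ⟨b, hb, hb'⟩ : ∃ b < d, t.1 = ⊤ ∨ t.1 ≤ up b := by
          rcases ht' with h | h
          · exact ⟨b0, hb0, Or.inl h⟩
          · rcases cases t.1 with h' | ⟨b, h'⟩
            · exact ⟨b0, hb0, Or.inl h'⟩
            · exact ⟨b, up_lt.1 (h' ▸ h), Or.inr h'.le⟩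
        filter_upwards [eventually_ge_atTop (⟨b, hb⟩ : Iio d)] with b' hb''
        exact ha' b'.1 t (hb'.imp id fun h => h.trans (up_le.2 hb'')) hs)
    obtain ⟨h, hh⟩ := hA' c fun n => by
      obtain ⟨b, -, k, e⟩ := hc n
      exact e ▸ ha b k
    have h1 : ∀ y : X, y.1 = ⊤ ∨ y.1 < up d → h.1.1 y = g y := fun y hy =>
      eq_of_nhds_neBot ((hh.continuousAt_comp (cev y).continuousAt).clusterPt.mono (hc' y hy))
    refine ⟨d, hd, ⟨b0, hb0⟩, fun b hb => (max_lt_iff.1 (hd' b hb)).2, h,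
      fun y hy => h1 y (Or.inr hy), fun y hy => ?_⟩
    rw [← h1 ⟨⊤, ht⟩ (Or.inl rfl)]
    have : h ∈ {f : Z | f.1.1 y = f.1.1 ⟨⊤, ht⟩} := by
      refine (isClosed_eq (cev _) (cev _)).mem_of_mapClusterPt hh (Eventually.of_forall fun n => ?_)
      obtain ⟨b, hb, k, e⟩ := hc n
      rw [e]
      exact hF b k y ((up_lt.2 (max_lt_iff.1 (hd' b hb)).1).trans_le hy)
    exact this
  obtain ⟨b0, hb0⟩ : ∃ b, ∀ y : X, up b < y.1 → g y = g ⟨⊤, ht⟩ := by
    have : ∀ n : ℕ, ∃ b, ∀ y : X, up b < y.1 → dist (g y) (g ⟨⊤, ht⟩) < 1 / ((n : ℝ) + 1) := by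
      intro n
      by_contra hcon
      push Not at hcon
      have : ∀ b, ∃ c, ∃ hc : up c ∈ X, b < c ∧ 1 / ((n : ℝ) + 1) ≤ dist (g ⟨_, hc⟩) (g ⟨⊤, ht⟩) := by
        intro b
        obtain ⟨⟨y, hy⟩, h1, h2⟩ := hcon b
        rcases cases y with rfl | ⟨c, rfl⟩
        · rw [dist_self] at h2
          exact absurd h2 (not_le.2 Nat.one_div_pos_of_nat)
        · exact ⟨c, hy, up_lt.1 h1, h2⟩
      choose F' h1 h2 h3 using this
      obtain ⟨d, hd, ⟨b, hb⟩, h4, h, h5, h6⟩ := key F'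
      obtain ⟨b', hb', h7⟩ := left_nhds' (x := ⟨_, hd⟩) (h.1.2.continuousAt.preimage_mem_nhds
        (Metric.ball_mem_nhds (h.1.1 ⟨_, hd⟩) (Nat.one_div_pos_of_nat (n := n)))) ⟨b, up_lt.2 hb⟩
      have h8 := h4 b' (up_lt.1 hb')
      have h9 := h7 ⟨_, h1 b'⟩ (up_lt.2 (h2 b')) (up_le.2 h8.le)
      rw [mem_preimage, Metric.mem_ball, h5 _ (up_lt.2 h8), h6 _ le_rfl] at h9
      exact absurd (h3 b') (not_le.2 h9)
    choose β hβ using this
    obtain ⟨b, hb⟩ := bdd_range le_rfl mk_le_aleph0 β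
    refine ⟨b, fun y hy => ?_⟩
    by_contra h
    obtain ⟨m, hm⟩ := exists_nat_one_div_lt (dist_pos.2 h)
    exact lt_asymm hm (hβ m y ((up_lt.2 (hb _)).trans hy))
  obtain ⟨d, -, ⟨b, hb⟩, h4, h, h5, h6⟩ := key fun _ => b0
  refine ⟨h, funext fun y => ?_⟩
  rcases lt_or_ge y.1 (up d) with hy | hy
  · exact h5 y hy
  · rw [h6 y hy, hb0 y ((up_lt.2 (h4 b hb)).trans_le hy)]

lemma exists_succ : ∃ σ : V → V, ∀ a b, a < b ↔ σ a ≤ b := by
  have : ∀ a : V, ∃ c, ∀ b, a < b ↔ c ≤ b := fun a => by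
    obtain ⟨c, hc, hc'⟩ := (wellFounded_lt (α := V)).has_min (Ioi a) (exists_gt le_rfl a)
    exact ⟨c, fun b => ⟨fun h => not_lt.1 (hc' b h), fun h => lt_of_lt_of_le hc h⟩⟩
  exact ⟨_, fun a => (this a).choose_spec⟩

theorem not_weak {X Y : Set L} (σ : V → V) (hσ : ∀ a b, a < b ↔ σ a ≤ b) (hX : ⊤ ∈ X) (hY : ⊤ ∈ Y)
    (hX' : ∀ a, up (σ a) ∈ X) (hY' : ∀ a, up (σ a) ∈ Y)
    (hXY : ∀ x ∈ X, x ∈ Y → x = ⊤ ∨ ∃ a, x = up (σ a)) : ¬ IsG (Cp (X × Y)) := by
  classical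
  intro h
  have hopen : ∀ a, IsOpen {up (σ a)} := fun a => by
    convert isOpen_Ioo (a := up a) (b := up (σ (σ a))) using 1
    ext x
    constructor
    · rintro rfl
      exact ⟨up_lt.2 ((hσ _ _).2 le_rfl), up_lt.2 ((hσ _ _).2 le_rfl)⟩
    · rintro ⟨h1, h2⟩
      rcases cases x with rfl | ⟨b, rfl⟩
      · exact absurd h2 not_top_lt
      · exact congrArg up (le_antisymm (not_lt.1 fun h => absurd ((hσ _ _).1 h)
          (not_le.2 (up_lt.1 h2))) ((hσ _ _).1 (up_lt.1 h1)))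
  let P : V → Set (X × Y → ℝ) := fun a => {f | (∀ x, f x ∈ Icc (0 : ℝ) 1) ∧
    ∀ p : X × Y, (p.1.1 ≠ p.2.1 ∨ up a < p.1.1) → f p = 0}
  have c1 : Continuous fun p : X × Y => p.1.1 := by fun_prop
  have c2 : Continuous fun p : X × Y => p.2.1 := by fun_prop
  have P_cont : ∀ a, ∀ f ∈ P a, Continuous f := by
    intro a f hf
    refine continuous_iff_continuousAt.2 fun p => tendsto_const_nhds.congr' ?_
    by_cases hp : p.1.1 ≠ p.2.1 ∨ up a < p.1.1
    · filter_upwards [((isOpen_ne_fun c1 c2).union (isOpen_lt continuous_const c1)).mem_nhds hp]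
        with q hq
      rw [hf.2 p hp, hf.2 q hq]
    · push Not at hp
      rcases hXY _ p.1.2 (hp.1 ▸ p.2.2) with h | ⟨b, h⟩
      · exact absurd (h ▸ hp.2) (not_le.2 (up_lt_top a))
      · filter_upwards [((hopen b).preimage c1).mem_nhds h,
          ((hopen b).preimage c2).mem_nhds (hp.1.symm.trans h)] with q h1 h2
        congr 1
        exact Prod.ext (Subtype.ext (h.trans h1.symm))
          (Subtype.ext ((hp.1.symm.trans h).trans h2.symm))
  have P_compact : ∀ a, IsCompact (P a) := fun a => by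
    refine (isCompact_univ_pi fun _ => isCompact_Icc (a := (0 : ℝ)) (b := 1)).of_isClosed_subset ?_
      fun f hf x _ => hf.1 x
    simp only [P, ofPred_and, ofPred_forall]
    exact (isClosed_iInter fun x => isClosed_Icc.preimage (continuous_apply x)).inter
      (isClosed_iInter fun x => isClosed_iInter fun _ =>
        isClosed_eq (continuous_apply _) continuous_const)
  have hK := h {f | ∃ a, f.1 ∈ P a} (acc_of_cluster fun u hu => by
    choose α hα using hu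
    obtain ⟨a, ha⟩ := bdd_range le_rfl mk_le_aleph0 α
    obtain ⟨v, hv, hv'⟩ := (P_compact a).exists_mapClusterPt (f := atTop)
      (u := fun n => (u n).1) (tendsto_principal.2 (Eventually.of_forall fun n =>
        ⟨(hα n).1, fun p hp => (hα n).2 p (hp.imp id fun h => (up_lt.2 (ha n)).trans h)⟩))
    exact ⟨⟨v, P_cont a v hv⟩, IsInducing.subtypeVal.mapClusterPt_iff.1 hv'⟩)
  let g : V → X × Y → ℝ := fun a p => if p.1.1 ≠ p.2.1 ∨ up a < p.1.1 then 0 else 1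
  have hg : ∀ a, g a ∈ P a := fun a => ⟨fun p => by
    simp only [g]
    split_ifs <;> simp, fun p hp => if_pos hp⟩
  obtain ⟨z, -, hz⟩ := hK.exists_mapClusterPt (f := atTop)
    (u := fun a => (⟨g a, P_cont a _ (hg a)⟩ : Cp (X × Y)))
    (tendsto_principal.2 (Eventually.of_forall fun a => subset_closure ⟨a, hg a⟩))
  have key : ∀ x c, (∀ᶠ a in atTop, g a x = c) → z.1 x = c := fun x c hc => by
    have h1 := hz.continuousAt_comp ((continuous_apply x).comp continuous_subtype_val).continuousAt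
    exact eq_of_nhds_neBot (h1.clusterPt.mono
      (tendsto_const_nhds.congr' (hc.mono fun a h => h.symm)))
  have h1 : z.1 (⟨⊤, hX⟩, ⟨⊤, hY⟩) = 0 := key _ _ (Eventually.of_forall fun a =>
    (hg a).2 _ (Or.inr (up_lt_top a)))
  have h2 : ∀ b, z.1 (⟨_, hX' b⟩, ⟨_, hY' b⟩) = 1 := fun b => key _ _ (by
    filter_upwards [eventually_ge_atTop (σ b)] with a ha
    exact if_neg (not_or.2 ⟨not_not.2 rfl, fun h => absurd (up_lt.1 h) (not_lt.2 ha)⟩))
  have ht : Tendsto (fun b => up (σ b)) atTop (𝓝 ⊤) := by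
    intro U hU
    obtain ⟨b, -, hb⟩ := left_nhds hU ⟨Classical.arbitrary V, up_lt_top _⟩
    refine mem_map.2 ?_
    filter_upwards [eventually_ge_atTop b] with c hc
    exact hb ⟨up_lt.2 (hc.trans_lt ((hσ _ _).2 le_rfl)), le_top⟩
  have h3 : Tendsto (fun b => ((⟨_, hX' b⟩, ⟨_, hY' b⟩) : X × Y)) atTop (𝓝 (⟨⊤, hX⟩, ⟨⊤, hY⟩)) :=
    (tendsto_subtype_rng.2 ht).prodMk_nhds (tendsto_subtype_rng.2 ht)
  have h4 : Tendsto (fun _ : V => (1 : ℝ)) atTop (𝓝 0) := by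
    rw [← h1]
    exact ((z.2.tendsto _).comp h3).congr h2
  exact one_ne_zero (tendsto_nhds_unique tendsto_const_nhds h4)

theorem main : ∃ X Y : Set L, (∀ Z : Set (Cp X), IsG Z) ∧ (∀ Z : Set (Cp Y), IsG Z) ∧
    ¬ IsG (Cp (X × Y)) := by
  obtain ⟨σ, hσ⟩ := exists_succ
  obtain ⟨g, hg⟩ := split reg
  obtain ⟨y, hy, y', hy', hne⟩ : {y | ¬ J {x | g x = y}}.Nontrivial := by
    rw [← Set.nontrivial_coe_sort, ← one_lt_iff_nontrivial]
    exact (one_lt_aleph0.trans reg.unc).trans_le hg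
  refine ⟨{x | x = ⊤ ∨ (∃ a, x = up (σ a)) ∨ ∃ a, g a = y ∧ x = up a},
    {x | x = ⊤ ∨ (∃ a, x = up (σ a)) ∨ ∃ a, g a = y' ∧ x = up a},
    groth (Or.inl rfl) fun h => hy (h.mono fun a ha => Or.inr (Or.inr ⟨a, ha, rfl⟩)),
    groth (Or.inl rfl) fun h => hy' (h.mono fun a ha => Or.inr (Or.inr ⟨a, ha, rfl⟩)),
    not_weak σ hσ (Or.inl rfl) (Or.inl rfl) (fun a => Or.inr (Or.inl ⟨a, rfl⟩))
      (fun a => Or.inr (Or.inl ⟨a, rfl⟩)) ?_⟩
  rintro x (h | h | ⟨a, ha, rfl⟩) h'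
  · exact Or.inl h
  · exact Or.inr h
  · rcases h' with h' | h' | ⟨b, hb, h'⟩
    · exact Or.inl h'
    · exact Or.inr h'
    · exact absurd (ha.symm.trans (up_inj h' ▸ hb)) hne

end Pool.Agent.H.MP_20595b_gt
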